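import Mathlib

/-!
# A disconnected fibre of the moment map of step functions

For `k = 2` and `A = {1, 2, 3}` the fibre of the moment map through the step function with
breakpoints `3/5, 4/5` and weights `6/7, 0, 1/7` is disconnected.
-/

namespace Pool.Agent.Results.MP_db617b_an.Disconnected

open Finset MeasureTheory

/-- The breakpoints `s_0 = 0, s_1, …, s_k, s_{k+1} = 1`. -/
def bp {k : ℕ} (s : Fin k → ℝ) : ℕ → ℝ
  | 0 => 0
  | (i + 1) => if h : i < k then s ⟨i, h⟩ else 1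

/-- The parameter polytope `P`, a product of two simplices. -/
def P (k : ℕ) : Set ((Fin k → ℝ) × (Fin (k + 1) → ℝ)) :=
  {p | (∀ i, 0 ≤ p.1 i ∧ p.1 i ≤ 1) ∧ Monotone p.1 ∧ (∀ i, 0 ≤ p.2 i) ∧ ∑ i, p.2 i = 1}

/-- The moment of order `a`:
`∑_{i=1}^{k+1} w_i (s_i^a + s_i^{a-1} s_{i-1} + ⋯ + s_{i-1}^a) / (a + 1)`. -/
noncomputable def mom {k : ℕ} (a : ℕ) (p : (Fin k → ℝ) × (Fin (k + 1) → ℝ)) : ℝ :=
  ∑ i : Fin (k + 1), p.2 i *
    ((∑ j ∈ range (a + 1), bp p.1 (i + 1) ^ (a - j) * bp p.1 i ^ j) / (a + 1))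

/-- The fibre of the moment map `μ_A` over `m ∈ ℝ^A`. -/
def fibre (k : ℕ) (A : Finset ℕ) (m : A → ℝ) : Set ((Fin k → ℝ) × (Fin (k + 1) → ℝ)) :=
  {p ∈ P k | ∀ a : A, mom (a : ℕ) p = m a}

/-! ### Averages of cubic polynomials -/

/-- Average of `q` over `[u, v]`. -/
noncomputable def avg (q : ℝ → ℝ) (u v : ℝ) : ℝ := ∫ t in (0 : ℝ)..1, q (u + t * (v - u))

/-- Cubic polynomials. -/
def Cubic (q : ℝ → ℝ) : Prop := ∃ c0 c1 c2 c3 : ℝ, q = fun x => c0 + c1 * x + c2 * x ^ 2 + c3 * x ^ 3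

lemma Cubic.continuous {q : ℝ → ℝ} (h : Cubic q) : Continuous q := by
  obtain ⟨c0, c1, c2, c3, rfl⟩ := h
  fun_prop

lemma avg_cubic (c0 c1 c2 c3 u v : ℝ) :
    avg (fun x => c0 + c1 * x + c2 * x ^ 2 + c3 * x ^ 3) u v
      = c0 + c1 * ((u + v) / 2) + c2 * ((v ^ 2 + v * u + u ^ 2) / 3)
        + c3 * ((v ^ 3 + v ^ 2 * u + v * u ^ 2 + u ^ 3) / 4) := by
  unfold avg
  have e : ∀ t : ℝ, c0 + c1 * (u + t * (v - u)) + c2 * (u + t * (v - u)) ^ 2
      + c3 * (u + t * (v - u)) ^ 3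
      = (c0 + c1 * u + c2 * u ^ 2 + c3 * u ^ 3)
        + ((c1 + 2 * c2 * u + 3 * c3 * u ^ 2) * (v - u)) * t ^ 1
        + ((c2 + 3 * c3 * u) * (v - u) ^ 2) * t ^ 2 + (c3 * (v - u) ^ 3) * t ^ 3 := by
    intro t; ring
  simp only [e]
  rw [intervalIntegral.integral_add (Continuous.intervalIntegrable (by fun_prop) _ _)
      (Continuous.intervalIntegrable (by fun_prop) _ _),
    intervalIntegral.integral_add (Continuous.intervalIntegrable (by fun_prop) _ _)
      (Continuous.intervalIntegrable (by fun_prop) _ _),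
    intervalIntegral.integral_add (Continuous.intervalIntegrable (by fun_prop) _ _)
      (Continuous.intervalIntegrable (by fun_prop) _ _)]
  simp only [intervalIntegral.integral_const_mul, integral_pow, intervalIntegral.integral_const]
  norm_num
  ring

lemma Cubic.split {q : ℝ → ℝ} (h : Cubic q) (u t v : ℝ) :
    (v - u) * avg q u v = (t - u) * avg q u t + (v - t) * avg q t v := by
  obtain ⟨c0, c1, c2, c3, rfl⟩ := h
  simp only [avg_cubic]
  ring

lemma avg_nonneg {q : ℝ → ℝ} {u v : ℝ} (huv : u ≤ v) (h : ∀ x, u ≤ x → x ≤ v → 0 ≤ q x) :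
    0 ≤ avg q u v := by
  unfold avg
  apply intervalIntegral.integral_nonneg zero_le_one
  intro t ht
  apply h
  · nlinarith [ht.1]
  · nlinarith [ht.2]

lemma avg_nonpos {q : ℝ → ℝ} {u v : ℝ} (huv : u ≤ v) (h : ∀ x, u ≤ x → x ≤ v → q x ≤ 0) :
    avg q u v ≤ 0 := by
  have h1 : 0 ≤ avg (fun x => - q x) u v := avg_nonneg huv fun x h2 h3 => by
    have := h x h2 h3
    linarith
  unfold avg at *
  rw [intervalIntegral.integral_neg] at h1
  linarith

lemma avg_pos {q : ℝ → ℝ} (hq : Continuous q) {u v : ℝ} (huv : u < v)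
    (h : ∀ x, u < x → x < v → 0 < q x) : 0 < avg q u v := by
  unfold avg
  apply intervalIntegral.intervalIntegral_pos_of_pos_on
    (Continuous.intervalIntegrable (by fun_prop) _ _) _ one_pos
  intro t ht
  apply h
  · nlinarith [ht.1]
  · nlinarith [ht.2]

lemma avg_neg {q : ℝ → ℝ} (hq : Continuous q) {u v : ℝ} (huv : u < v)
    (h : ∀ x, u < x → x < v → q x < 0) : avg q u v < 0 := by
  have h1 : 0 < avg (fun x => - q x) u v := avg_pos (by fun_prop) huv fun x h2 h3 => by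
    have := h x h2 h3
    linarith
  unfold avg at *
  rw [intervalIntegral.integral_neg] at h1
  linarith

lemma cubic_prod (a0 a1 b0 b1 d0 d1 : ℝ) :
    Cubic fun x => (a0 + a1 * x) * ((b0 + b1 * x) * (d0 + d1 * x)) :=
  ⟨a0 * b0 * d0, a1 * b0 * d0 + a0 * b1 * d0 + a0 * b0 * d1,
    a1 * b1 * d0 + a1 * b0 * d1 + a0 * b1 * d1, a1 * b1 * d1, by ext x; ring⟩

/-- The balance of moments against the step function `f` with breakpoints `3/5, 4/5` and weights
`6/7, 0, 1/7`. -/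
def Bal (p r w0 w1 w2 : ℝ) : Prop := ∀ q, Cubic q →
  w0 * avg q 0 p + w1 * avg q p r + w2 * avg q r 1
    = 6 / 7 * avg q 0 (3 / 5) + 1 / 7 * avg q (4 / 5) 1

/-- No element of the fibre has its first breakpoint in `(3/5, 4/5)`, second one `≤ 4/5`. -/
lemma caseIa {p r w0 w1 w2 : ℝ} (hB : Bal p r w0 w1 w2) (h0 : 0 ≤ w0) (h1 : 0 ≤ w1)
    (h2 : 0 ≤ w2) (hp : 3 / 5 < p) (hpr : p ≤ r) (hr : r ≤ 4 / 5) : False := by
  have hp0 : 0 < p := by linarith
  have hr1 : 0 < 1 - r := by linarith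
  obtain ⟨x1, hx1⟩ : ∃ x1, x1 = w0 / p := ⟨_, rfl⟩
  obtain ⟨x3, hx3⟩ : ∃ x3, x3 = w2 / (1 - r) := ⟨_, rfl⟩
  have hx1' : w0 = x1 * p := by rw [hx1]; field_simp
  have hx3' : w2 = x3 * (1 - r) := by rw [hx3]; field_simp
  have hx10 : 0 ≤ x1 := by rw [hx1]; positivity
  have hx30 : 0 ≤ x3 := by rw [hx3]; positivity
  have key : ∀ q, Cubic q → (x1 * (3 / 5) - 6 / 7) * avg q 0 (3 / 5)
      + x1 * (p - 3 / 5) * avg q (3 / 5) p + w1 * avg q p r
      + x3 * (4 / 5 - r) * avg q r (4 / 5)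
      + (x3 * (1 / 5) - 1 / 7) * avg q (4 / 5) 1 = 0 := by
    intro q hq
    have e := hB q hq
    have e1 := hq.split 0 (3 / 5) p
    have e2 := hq.split r (4 / 5) 1
    rw [hx1', hx3'] at e
    linear_combination e - x1 * e1 - x3 * e2
  -- choice of the left factor
  obtain ⟨a0, a1, hA1, hA2, hA3⟩ : ∃ a0 a1 : ℝ, (∀ x, 3 / 5 < x → 0 < a0 + a1 * x) ∧
      (0 ≤ x1 * (3 / 5) - 6 / 7 → ∀ x, 0 < a0 + a1 * x) ∧
      (x1 * (3 / 5) - 6 / 7 < 0 → ∀ x, x < 3 / 5 → a0 + a1 * x < 0) := by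
    rcases le_or_gt 0 (x1 * (3 / 5) - 6 / 7) with h | h
    · exact ⟨1, 0, fun x _ => by linarith, fun _ x => by linarith, fun h' => by linarith⟩
    · exact ⟨-(3 / 5), 1, fun x _ => by linarith, fun h' => by linarith,
        fun _ x _ => by linarith⟩
  obtain ⟨b0, b1, hB1, hB2, hB3⟩ : ∃ b0 b1 : ℝ, (∀ x, x < 4 / 5 → 0 < b0 + b1 * x) ∧
      (0 ≤ x3 * (1 / 5) - 1 / 7 → ∀ x, 0 < b0 + b1 * x) ∧
      (x3 * (1 / 5) - 1 / 7 < 0 → ∀ x, 4 / 5 < x → b0 + b1 * x < 0) := by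
    rcases le_or_gt 0 (x3 * (1 / 5) - 1 / 7) with h | h
    · exact ⟨1, 0, fun x _ => by linarith, fun _ x => by linarith, fun h' => by linarith⟩
    · exact ⟨4 / 5, -1, fun x _ => by linarith, fun h' => by linarith,
        fun _ x _ => by linarith⟩
  have hq := cubic_prod a0 a1 b0 b1 1 0
  have hk := key _ hq
  set q : ℝ → ℝ := fun x => (a0 + a1 * x) * ((b0 + b1 * x) * (1 + 0 * x)) with hqdef
  have hqc := hq.continuous
  have hqv : ∀ x, q x = (a0 + a1 * x) * (b0 + b1 * x) := fun x => by rw [hqdef]; ring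
  have hmid : ∀ x, 3 / 5 < x → x < 4 / 5 → 0 < q x := fun x h3 h4 => by
    rw [hqv]; exact mul_pos (hA1 x h3) (hB1 x h4)
  have t2 : 0 < avg q (3 / 5) p := avg_pos hqc hp fun x h3 h4 => hmid x h3 (by linarith)
  have t3 : 0 ≤ w1 * avg q p r := by
    rcases hpr.eq_or_lt with h | h
    · rw [← h]
      have : avg q p p = q p := by
        unfold avg; simp
      rw [this]
      rcases hr.eq_or_lt with h' | h'
      · have : 0 ≤ q p := by
          have hpp : p = 4 / 5 := by linarith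
          have hc : Filter.Tendsto q (nhdsWithin (4 / 5) (Set.Iio (4 / 5))) (nhds (q (4 / 5))) :=
            hqc.continuousAt.tendsto.mono_left nhdsWithin_le_nhds
          rw [hpp]
          apply ge_of_tendsto hc
          have h5 : ∀ᶠ x : ℝ in nhdsWithin (4 / 5) (Set.Iio (4 / 5)), 3 / 5 < x :=
            nhdsWithin_le_nhds (lt_mem_nhds (by norm_num))
          filter_upwards [h5, self_mem_nhdsWithin] with x hx hx'
          exact (hmid x hx hx').le
        positivity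
      · have := hmid p hp (by linarith)
        positivity
    · have := avg_pos hqc h fun x h3 h4 => hmid x (by linarith) (by linarith)
      positivity
  have t4 : 0 ≤ x3 * (4 / 5 - r) * avg q r (4 / 5) := by
    rcases hr.eq_or_lt with h | h
    · rw [h]; simp
    · have := avg_pos hqc h fun x h3 h4 => hmid x (by linarith) h4
      have : 0 ≤ 4 / 5 - r := by linarith
      positivity
  have t5 : 0 ≤ (x3 * (1 / 5) - 1 / 7) * avg q (4 / 5) 1 := by
    rcases le_or_gt 0 (x3 * (1 / 5) - 1 / 7) with h | h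
    · have := avg_pos hqc (u := 4 / 5) (v := 1) (by norm_num) fun x h3 h4 => by
        rw [hqv]; exact mul_pos (hA1 x (by linarith)) (hB2 h x)
      positivity
    · have := avg_neg hqc (u := 4 / 5) (v := 1) (by norm_num) fun x h3 h4 => by
        rw [hqv]; exact mul_neg_of_pos_of_neg (hA1 x (by linarith)) (hB3 h x h3)
      nlinarith
  rcases le_or_gt 0 (x1 * (3 / 5) - 6 / 7) with h | h
  · have t1 := avg_pos hqc (u := 0) (v := 3 / 5) (by norm_num) fun x h3 h4 => by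
      rw [hqv]; exact mul_pos (hA2 h x) (hB1 x (by linarith))
    have hx1p : 0 < x1 := by linarith
    have t1' : 0 ≤ (x1 * (3 / 5) - 6 / 7) * avg q 0 (3 / 5) := by positivity
    have t2' : 0 < x1 * (p - 3 / 5) * avg q (3 / 5) p := by
      have : 0 < p - 3 / 5 := by linarith
      positivity
    linarith
  · have t1 := avg_neg hqc (u := 0) (v := 3 / 5) (by norm_num) fun x h3 h4 => by
      rw [hqv]; exact mul_neg_of_neg_of_pos (hA3 h x h4) (hB1 x (by linarith))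
    have t1' : 0 < (x1 * (3 / 5) - 6 / 7) * avg q 0 (3 / 5) := mul_pos_of_neg_of_neg h t1
    have t2' : 0 ≤ x1 * (p - 3 / 5) * avg q (3 / 5) p := by
      have : 0 < p - 3 / 5 := by linarith
      positivity
    linarith

/-- No element of the fibre has its first breakpoint in `(3/5, 4/5)` and the second one
`> 4/5`. -/
lemma caseIb {p r w0 w1 w2 : ℝ} (hB : Bal p r w0 w1 w2) (h0 : 0 ≤ w0) (h1 : 0 ≤ w1)
    (hp : 3 / 5 < p) (hp' : p < 4 / 5) (hr : 4 / 5 < r) (hr1 : r ≤ 1) : False := by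
  have hp0 : 0 < p := by linarith
  have hrp : 0 < r - p := by linarith
  obtain ⟨x1, hx1⟩ : ∃ x1, x1 = w0 / p := ⟨_, rfl⟩
  obtain ⟨x2, hx2⟩ : ∃ x2, x2 = w1 / (r - p) := ⟨_, rfl⟩
  have hx1' : w0 = x1 * p := by rw [hx1]; field_simp
  have hx2' : w1 = x2 * (r - p) := by rw [hx2]; field_simp
  have hx10 : 0 ≤ x1 := by rw [hx1]; positivity
  have hx20 : 0 ≤ x2 := by rw [hx2]; positivity
  have key : ∀ q, Cubic q → (x1 * (3 / 5) - 6 / 7) * avg q 0 (3 / 5)
      + x1 * (p - 3 / 5) * avg q (3 / 5) p + x2 * (4 / 5 - p) * avg q p (4 / 5)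
      + (x2 - 5 / 7) * (r - 4 / 5) * avg q (4 / 5) r
      + (w2 - 5 / 7 * (1 - r)) * avg q r 1 = 0 := by
    intro q hq
    have e := hB q hq
    have e1 := hq.split 0 (3 / 5) p
    have e2 := hq.split p (4 / 5) r
    have e3 := hq.split (4 / 5) r 1
    rw [hx1', hx2'] at e
    linear_combination e - x1 * e1 - x2 * e2 + 5 / 7 * e3
  -- choice of the left factor
  obtain ⟨a0, a1, hA1, hA2, hA3⟩ : ∃ a0 a1 : ℝ, (∀ x, 3 / 5 < x → 0 < a0 + a1 * x) ∧
      (0 ≤ x1 * (3 / 5) - 6 / 7 → ∀ x, 0 < a0 + a1 * x) ∧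
      (x1 * (3 / 5) - 6 / 7 < 0 → ∀ x, x < 3 / 5 → a0 + a1 * x < 0) := by
    rcases le_or_gt 0 (x1 * (3 / 5) - 6 / 7) with h | h
    · exact ⟨1, 0, fun x _ => by linarith, fun _ x => by linarith, fun h' => by linarith⟩
    · exact ⟨-(3 / 5), 1, fun x _ => by linarith, fun h' => by linarith,
        fun _ x _ => by linarith⟩
  obtain ⟨b0, b1, d0, d1, hR1, hR2, hR3⟩ : ∃ b0 b1 d0 d1 : ℝ,
      (∀ x, x < 4 / 5 → 0 < (b0 + b1 * x) * (d0 + d1 * x)) ∧
      (∀ x, 4 / 5 ≤ x → x ≤ r → 0 ≤ (x2 - 5 / 7) * ((b0 + b1 * x) * (d0 + d1 * x))) ∧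
      (∀ x, r ≤ x → 0 ≤ (w2 - 5 / 7 * (1 - r)) * ((b0 + b1 * x) * (d0 + d1 * x))) := by
    rcases le_or_gt 0 (x2 - 5 / 7) with h | h <;>
    rcases le_or_gt 0 (w2 - 5 / 7 * (1 - r)) with h' | h'
    · exact ⟨1, 0, 1, 0, fun x _ => by norm_num, fun x _ _ => by simpa using h,
        fun x _ => by simpa using h'⟩
    · refine ⟨r, -1, 1, 0, fun x hx => ?_, fun x _ hx => ?_, fun x hx => ?_⟩
      · have : 0 < r - x := by linarith
        nlinarith
      · have : 0 ≤ (x2 - 5 / 7) * (r - x) := mul_nonneg h (by linarith)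
        linarith
      · have : 0 ≤ (w2 - 5 / 7 * (1 - r)) * (r - x) := mul_nonneg_of_nonpos_of_nonpos h'.le
          (by linarith)
        linarith
    · refine ⟨4 / 5, -1, r, -1, fun x hx => ?_, fun x hx hx' => ?_, fun x hx => ?_⟩
      · exact mul_pos (by linarith) (by linarith)
      · apply mul_nonneg_of_nonpos_of_nonpos h.le
        exact mul_nonpos_of_nonpos_of_nonneg (by linarith) (by linarith)
      · apply mul_nonneg h'
        exact mul_nonneg_of_nonpos_of_nonpos (by linarith) (by linarith)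
    · refine ⟨4 / 5, -1, 1, 0, fun x hx => ?_, fun x hx _ => ?_, fun x hx => ?_⟩
      · have : 0 < 4 / 5 - x := by linarith
        nlinarith
      · have : 0 ≤ (x2 - 5 / 7) * (4 / 5 - x) := mul_nonneg_of_nonpos_of_nonpos h.le
          (by linarith)
        linarith
      · have : 0 ≤ (w2 - 5 / 7 * (1 - r)) * (4 / 5 - x) := mul_nonneg_of_nonpos_of_nonpos h'.le
          (by linarith)
        linarith
  have hq := cubic_prod a0 a1 b0 b1 d0 d1
  have hk := key _ hq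
  set q : ℝ → ℝ := fun x => (a0 + a1 * x) * ((b0 + b1 * x) * (d0 + d1 * x)) with hqdef
  have hqc := hq.continuous
  have t2 : 0 < avg q (3 / 5) p := avg_pos hqc hp fun x h3 h4 =>
    mul_pos (hA1 x h3) (hR1 x (by linarith))
  have t3 : 0 ≤ x2 * (4 / 5 - p) * avg q p (4 / 5) := by
    have := avg_pos hqc hp' fun x h3 h4 => mul_pos (hA1 x (by linarith)) (hR1 x h4)
    have : 0 ≤ 4 / 5 - p := by linarith
    positivity
  have hmul : ∀ c u v : ℝ, c * avg q u v = avg (fun x => c * q x) u v := by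
    intro c u v
    unfold avg
    rw [intervalIntegral.integral_const_mul]
  have t4 : 0 ≤ (x2 - 5 / 7) * (r - 4 / 5) * avg q (4 / 5) r := by
    have e : (x2 - 5 / 7) * (r - 4 / 5) * avg q (4 / 5) r
        = (r - 4 / 5) * ((x2 - 5 / 7) * avg q (4 / 5) r) := by ring
    rw [e, hmul]
    apply mul_nonneg (by linarith)
    apply avg_nonneg hr.le
    intro x h3 h4
    have := mul_nonneg (hA1 x (by linarith)).le (hR2 x h3 h4)
    refine le_of_le_of_eq this ?_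
    rw [hqdef]; ring
  have t5 : 0 ≤ (w2 - 5 / 7 * (1 - r)) * avg q r 1 := by
    rw [hmul]
    apply avg_nonneg hr1
    intro x h3 h4
    have := mul_nonneg (hA1 x (by linarith)).le (hR3 x h3)
    refine le_of_le_of_eq this ?_
    rw [hqdef]; ring
  rcases le_or_gt 0 (x1 * (3 / 5) - 6 / 7) with h | h
  · have t1 := avg_pos hqc (u := 0) (v := 3 / 5) (by norm_num) fun x h3 h4 =>
      mul_pos (hA2 h x) (hR1 x (by linarith))
    have hx1p : 0 < x1 := by linarith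
    have t1' : 0 ≤ (x1 * (3 / 5) - 6 / 7) * avg q 0 (3 / 5) := by positivity
    have t2' : 0 < x1 * (p - 3 / 5) * avg q (3 / 5) p := by
      have : 0 < p - 3 / 5 := by linarith
      positivity
    linarith
  · have t1 := avg_neg hqc (u := 0) (v := 3 / 5) (by norm_num) fun x h3 h4 =>
      mul_neg_of_neg_of_pos (hA3 h x h4) (hR1 x (by linarith))
    have t1' : 0 < (x1 * (3 / 5) - 6 / 7) * avg q 0 (3 / 5) := mul_pos_of_neg_of_neg h t1
    have t2' : 0 ≤ x1 * (p - 3 / 5) * avg q (3 / 5) p := by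
      have : 0 < p - 3 / 5 := by linarith
      positivity
    linarith

/-- No element of the fibre has its second breakpoint in `(3/5, 4/5)` and the first one
`≤ 3/5`. -/
lemma caseII {p r w0 w1 w2 : ℝ} (hB : Bal p r w0 w1 w2) (h1 : 0 ≤ w1)
    (h2 : 0 ≤ w2) (hp0 : 0 ≤ p) (hp : p ≤ 3 / 5) (hr : 3 / 5 < r) (hr' : r < 4 / 5) : False := by
  have hr1 : 0 < 1 - r := by linarith
  have hrp : 0 < r - p := by linarith
  obtain ⟨x2, hx2⟩ : ∃ x2, x2 = w1 / (r - p) := ⟨_, rfl⟩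
  obtain ⟨x3, hx3⟩ : ∃ x3, x3 = w2 / (1 - r) := ⟨_, rfl⟩
  have hx2' : w1 = x2 * (r - p) := by rw [hx2]; field_simp
  have hx3' : w2 = x3 * (1 - r) := by rw [hx3]; field_simp
  have hx20 : 0 ≤ x2 := by rw [hx2]; positivity
  have hx30 : 0 ≤ x3 := by rw [hx3]; positivity
  have key : ∀ q, Cubic q → (w0 - 10 / 7 * p) * avg q 0 p
      + (x2 - 10 / 7) * (3 / 5 - p) * avg q p (3 / 5) + x2 * (r - 3 / 5) * avg q (3 / 5) r
      + x3 * (4 / 5 - r) * avg q r (4 / 5)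
      + (x3 - 5 / 7) * (1 / 5) * avg q (4 / 5) 1 = 0 := by
    intro q hq
    have e := hB q hq
    have e1 := hq.split 0 p (3 / 5)
    have e2 := hq.split p (3 / 5) r
    have e3 := hq.split r (4 / 5) 1
    rw [hx2', hx3'] at e
    linear_combination e + 10 / 7 * e1 - x2 * e2 - x3 * e3
  -- choice of the right factor
  obtain ⟨a0, a1, hA1, hA2, hA3⟩ : ∃ a0 a1 : ℝ, (∀ x, x < 4 / 5 → 0 < a0 + a1 * x) ∧
      (0 ≤ x3 - 5 / 7 → ∀ x, 0 < a0 + a1 * x) ∧
      (x3 - 5 / 7 < 0 → ∀ x, 4 / 5 < x → a0 + a1 * x < 0) := by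
    rcases le_or_gt 0 (x3 - 5 / 7) with h | h
    · exact ⟨1, 0, fun x _ => by linarith, fun _ x => by linarith, fun h' => by linarith⟩
    · exact ⟨4 / 5, -1, fun x _ => by linarith, fun h' => by linarith,
        fun _ x _ => by linarith⟩
  obtain ⟨b0, b1, d0, d1, hR1, hR2, hR3⟩ : ∃ b0 b1 d0 d1 : ℝ,
      (∀ x, 3 / 5 < x → 0 < (b0 + b1 * x) * (d0 + d1 * x)) ∧
      (∀ x, p ≤ x → x ≤ 3 / 5 → 0 ≤ (x2 - 10 / 7) * ((b0 + b1 * x) * (d0 + d1 * x))) ∧
      (∀ x, x ≤ p → 0 ≤ (w0 - 10 / 7 * p) * ((b0 + b1 * x) * (d0 + d1 * x))) := by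
    rcases le_or_gt 0 (x2 - 10 / 7) with h | h <;>
    rcases le_or_gt 0 (w0 - 10 / 7 * p) with h' | h'
    · exact ⟨1, 0, 1, 0, fun x _ => by norm_num, fun x _ _ => by simpa using h,
        fun x _ => by simpa using h'⟩
    · refine ⟨-p, 1, 1, 0, fun x hx => ?_, fun x hx _ => ?_, fun x hx => ?_⟩
      · have : 0 < x - p := by linarith
        nlinarith
      · have : 0 ≤ (x2 - 10 / 7) * (x - p) := mul_nonneg h (by linarith)
        linarith
      · have : 0 ≤ (w0 - 10 / 7 * p) * (x - p) := mul_nonneg_of_nonpos_of_nonpos h'.le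
          (by linarith)
        linarith
    · refine ⟨-(3 / 5), 1, -p, 1, fun x hx => ?_, fun x hx hx' => ?_, fun x hx => ?_⟩
      · exact mul_pos (by linarith) (by linarith)
      · apply mul_nonneg_of_nonpos_of_nonpos h.le
        exact mul_nonpos_of_nonpos_of_nonneg (by linarith) (by linarith)
      · apply mul_nonneg h'
        exact mul_nonneg_of_nonpos_of_nonpos (by linarith) (by linarith)
    · refine ⟨-(3 / 5), 1, 1, 0, fun x hx => ?_, fun x _ hx => ?_, fun x hx => ?_⟩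
      · have : 0 < x - 3 / 5 := by linarith
        nlinarith
      · have : 0 ≤ (x2 - 10 / 7) * (x - 3 / 5) := mul_nonneg_of_nonpos_of_nonpos h.le
          (by linarith)
        linarith
      · have : 0 ≤ (w0 - 10 / 7 * p) * (x - 3 / 5) := mul_nonneg_of_nonpos_of_nonpos h'.le
          (by linarith)
        linarith
  have hq := cubic_prod a0 a1 b0 b1 d0 d1
  have hk := key _ hq
  set q : ℝ → ℝ := fun x => (a0 + a1 * x) * ((b0 + b1 * x) * (d0 + d1 * x)) with hqdef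
  have hqc := hq.continuous
  have t3 : 0 < avg q (3 / 5) r := avg_pos hqc hr fun x h3 h4 =>
    mul_pos (hA1 x (by linarith)) (hR1 x h3)
  have t3' : 0 ≤ x2 * (r - 3 / 5) * avg q (3 / 5) r := by
    have : 0 ≤ r - 3 / 5 := by linarith
    positivity
  have t4 : 0 < avg q r (4 / 5) := avg_pos hqc hr' fun x h3 h4 =>
    mul_pos (hA1 x h4) (hR1 x (by linarith))
  have hmul : ∀ c u v : ℝ, c * avg q u v = avg (fun x => c * q x) u v := by
    intro c u v
    unfold avg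
    rw [intervalIntegral.integral_const_mul]
  have t2 : 0 ≤ (x2 - 10 / 7) * (3 / 5 - p) * avg q p (3 / 5) := by
    have e : (x2 - 10 / 7) * (3 / 5 - p) * avg q p (3 / 5)
        = (3 / 5 - p) * ((x2 - 10 / 7) * avg q p (3 / 5)) := by ring
    rw [e, hmul]
    apply mul_nonneg (by linarith)
    apply avg_nonneg hp
    intro x h3 h4
    have := mul_nonneg (hA1 x (by linarith)).le (hR2 x h3 h4)
    refine le_of_le_of_eq this ?_
    rw [hqdef]; ring
  have t1 : 0 ≤ (w0 - 10 / 7 * p) * avg q 0 p := by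
    rw [hmul]
    apply avg_nonneg hp0
    intro x h3 h4
    have := mul_nonneg (hA1 x (by linarith)).le (hR3 x h4)
    refine le_of_le_of_eq this ?_
    rw [hqdef]; ring
  rcases le_or_gt 0 (x3 - 5 / 7) with h | h
  · have t5 := avg_pos hqc (u := 4 / 5) (v := 1) (by norm_num) fun x h3 h4 =>
      mul_pos (hA2 h x) (hR1 x (by linarith))
    have hx3p : 0 < x3 := by linarith
    have t5' : 0 ≤ (x3 - 5 / 7) * (1 / 5) * avg q (4 / 5) 1 := by positivity
    have t4' : 0 < x3 * (4 / 5 - r) * avg q r (4 / 5) := by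
      have : 0 < 4 / 5 - r := by linarith
      positivity
    linarith
  · have t5 := avg_neg hqc (u := 4 / 5) (v := 1) (by norm_num) fun x h3 h4 =>
      mul_neg_of_neg_of_pos (hA3 h x h3) (hR1 x (by linarith))
    have t5' : 0 < (x3 - 5 / 7) * (1 / 5) * avg q (4 / 5) 1 :=
      mul_pos_of_neg_of_neg (by linarith) t5
    have t4' : 0 ≤ x3 * (4 / 5 - r) * avg q r (4 / 5) := by
      have : 0 < 4 / 5 - r := by linarith
      positivity
    linarith

lemma mom_two (a : ℕ) (p : (Fin 2 → ℝ) × (Fin 3 → ℝ)) : mom a p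
    = p.2 0 * ((∑ j ∈ range (a + 1), p.1 0 ^ (a - j) * 0 ^ j) / (a + 1))
      + p.2 1 * ((∑ j ∈ range (a + 1), p.1 1 ^ (a - j) * p.1 0 ^ j) / (a + 1))
      + p.2 2 * ((∑ j ∈ range (a + 1), 1 ^ (a - j) * p.1 1 ^ j) / (a + 1)) := by
  unfold mom
  rw [Fin.sum_univ_three]
  simp [bp]

/-- The moments of the example. -/
noncomputable def m₀ : ({1, 2, 3} : Finset ℕ) → ℝ := fun a =>
  if (a : ℕ) = 1 then 27 / 70 else if (a : ℕ) = 2 then 23 / 105 else 531 / 3500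

lemma mem_fibre_iff (p : (Fin 2 → ℝ) × (Fin 3 → ℝ)) : p ∈ fibre 2 {1, 2, 3} m₀ ↔ p ∈ P 2 ∧
    (p.2 0 * p.1 0 + p.2 1 * (p.1 1 + p.1 0) + p.2 2 * (1 + p.1 1)) / 2 = 27 / 70 ∧
    (p.2 0 * p.1 0 ^ 2 + p.2 1 * (p.1 1 ^ 2 + p.1 1 * p.1 0 + p.1 0 ^ 2)
      + p.2 2 * (1 + p.1 1 + p.1 1 ^ 2)) / 3 = 23 / 105 ∧
    (p.2 0 * p.1 0 ^ 3 + p.2 1 * (p.1 1 ^ 3 + p.1 1 ^ 2 * p.1 0 + p.1 1 * p.1 0 ^ 2 + p.1 0 ^ 3)
      + p.2 2 * (1 + p.1 1 + p.1 1 ^ 2 + p.1 1 ^ 3)) / 4 = 531 / 3500 := by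
  unfold fibre
  rw [Set.mem_ofPred_eq]
  have h1 : mom 1 p = (p.2 0 * p.1 0 + p.2 1 * (p.1 1 + p.1 0) + p.2 2 * (1 + p.1 1)) / 2 := by
    rw [mom_two]
    simp [sum_range_succ]
    ring
  have h2 : mom 2 p = (p.2 0 * p.1 0 ^ 2 + p.2 1 * (p.1 1 ^ 2 + p.1 1 * p.1 0 + p.1 0 ^ 2)
      + p.2 2 * (1 + p.1 1 + p.1 1 ^ 2)) / 3 := by
    rw [mom_two]
    simp [sum_range_succ]
    ring
  have h3 : mom 3 p = (p.2 0 * p.1 0 ^ 3
      + p.2 1 * (p.1 1 ^ 3 + p.1 1 ^ 2 * p.1 0 + p.1 1 * p.1 0 ^ 2 + p.1 0 ^ 3)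
      + p.2 2 * (1 + p.1 1 + p.1 1 ^ 2 + p.1 1 ^ 3)) / 4 := by
    rw [mom_two]
    simp [sum_range_succ]
    ring
  rw [← h1, ← h2, ← h3]
  constructor
  · rintro ⟨hP, h⟩
    exact ⟨hP, h ⟨1, by simp⟩, h ⟨2, by simp⟩, h ⟨3, by simp⟩⟩
  · rintro ⟨hP, h1, h2, h3⟩
    refine ⟨hP, fun a => ?_⟩
    obtain ⟨a, ha⟩ := a
    simp only [mem_insert, mem_singleton] at ha
    rcases ha with rfl | rfl | rfl
    · exact h1
    · exact h2
    · exact h3

lemma bal_of_mem {p : (Fin 2 → ℝ) × (Fin 3 → ℝ)} (hp : p ∈ fibre 2 {1, 2, 3} m₀) :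
    Bal (p.1 0) (p.1 1) (p.2 0) (p.2 1) (p.2 2) := by
  obtain ⟨hP, h1, h2, h3⟩ := (mem_fibre_iff p).mp hp
  have hs := hP.2.2.2
  rw [Fin.sum_univ_three] at hs
  rintro q ⟨c0, c1, c2, c3, rfl⟩
  simp only [avg_cubic]
  linear_combination c0 * hs + c1 * h1 + c2 * h2 + c3 * h3

/-- **Theorem.** For `k = 2` and `A = {1, 2, 3}` there is a disconnected fibre of the moment map
`μ_A`. -/
theorem result : ∃ m : ({1, 2, 3} : Finset ℕ) → ℝ, ¬ IsPreconnected (fibre 2 {1, 2, 3} m) := by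
  refine ⟨m₀, fun hcon => ?_⟩
  -- two points of the fibre
  obtain ⟨f, hf⟩ : ∃ f : (Fin 2 → ℝ) × (Fin 3 → ℝ), f = (![3 / 5, 4 / 5], ![6 / 7, 0, 1 / 7]) :=
    ⟨_, rfl⟩
  obtain ⟨g, hg⟩ : ∃ g : (Fin 2 → ℝ) × (Fin 3 → ℝ),
      g = (![1 / 5, 2 / 5], ![9 / 35, 14 / 35, 12 / 35]) := ⟨_, rfl⟩
  have hfm : f ∈ fibre 2 {1, 2, 3} m₀ := by
    rw [mem_fibre_iff, hf]
    refine ⟨⟨?_, ?_, ?_, ?_⟩, ?_⟩
    · intro i; fin_cases i <;> norm_num
    · intro i j hij
      fin_cases i <;> fin_cases j <;> simp at hij ⊢ <;> norm_num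
    · intro i; fin_cases i <;> norm_num
    · rw [Fin.sum_univ_three]; simp only [Matrix.cons_val]; norm_num
    · simp only [Matrix.cons_val]; norm_num
  have hgm : g ∈ fibre 2 {1, 2, 3} m₀ := by
    rw [mem_fibre_iff, hg]
    refine ⟨⟨?_, ?_, ?_, ?_⟩, ?_⟩
    · intro i; fin_cases i <;> norm_num
    · intro i j hij
      fin_cases i <;> fin_cases j <;> simp at hij ⊢ <;> norm_num
    · intro i; fin_cases i <;> norm_num
    · rw [Fin.sum_univ_three]; simp only [Matrix.cons_val]; norm_num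
    · simp only [Matrix.cons_val]; norm_num
  -- the dichotomy
  have key : ∀ x ∈ fibre 2 {1, 2, 3} m₀, x.1 1 ≤ 3 / 5 ∨ 4 / 5 ≤ x.1 0 ∨
      (x.1 0 ≤ 3 / 5 ∧ 4 / 5 ≤ x.1 1) := by
    intro x hx
    have hB := bal_of_mem hx
    have hP := ((mem_fibre_iff x).mp hx).1
    obtain ⟨h01, hmono, hw, hsum⟩ := hP
    have hpr : x.1 0 ≤ x.1 1 := hmono (by simp)
    rcases le_or_gt (x.1 1) (3 / 5) with h | h
    · exact Or.inl h
    rcases le_or_gt (4 / 5) (x.1 0) with h' | h'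
    · exact Or.inr (Or.inl h')
    right; right
    rcases le_or_gt (x.1 0) (3 / 5) with h2 | h2
    · refine ⟨h2, ?_⟩
      by_contra hc
      push Not at hc
      exact caseII hB (hw 1) (hw 2) (h01 0).1 h2 h hc
    · exfalso
      rcases le_or_gt (x.1 1) (4 / 5) with h3 | h3
      · exact caseIa hB (hw 0) (hw 1) (hw 2) h2 hpr h3
      · exact caseIb hB (hw 0) (hw 1) h2 h' h3 (h01 1).2
  -- separate by open sets
  have h0c : Continuous fun x : (Fin 2 → ℝ) × (Fin 3 → ℝ) => x.1 0 := by fun_prop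
  have h1c : Continuous fun x : (Fin 2 → ℝ) × (Fin 3 → ℝ) => x.1 1 := by fun_prop
  obtain ⟨x, hx, hxU, hxV⟩ := hcon
    {x | x.1 1 < 7 / 10 ∨ 7 / 10 < x.1 0} {x | x.1 0 < 7 / 10 ∧ 7 / 10 < x.1 1}
    ((isOpen_lt h1c continuous_const).union (isOpen_lt continuous_const h0c))
    ((isOpen_lt h0c continuous_const).inter (isOpen_lt continuous_const h1c))
    (fun x hx => by
      rcases key x hx with h | h | ⟨h, h'⟩
      · left; left; linarith
      · left; right; linarith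
      · right; exact ⟨by linarith, by linarith⟩)
    ⟨g, hgm, by left; rw [hg]; norm_num⟩ ⟨f, hfm, by rw [hf]; constructor <;> norm_num⟩
  rcases hxU with h | h
  · exact absurd hxV.2 (by linarith)
  · exact absurd hxV.1 (by linarith)

end Pool.Agent.Results.MP_db617b_an.Disconnected
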